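import Mathlib
import Pool.Agent.H592R3.MapIn

/-!
Building circuits from gates indexed by a finite type.
-/

namespace H592R3.Orc

open Finset DomAC0 H568R2 H592R3

/-- The function of a gate. -/
noncomputable def gf {V : Type} (k : GateKind) (P : Finset V) (v : V → Bool) : Bool :=
  open Classical in
  match k with
  | GateKind.and => decide (∀ u ∈ P, v u = true)
  | GateKind.or => decide (∃ u ∈ P, v u = true)
  | GateKind.not => decide (∀ u ∈ P, v u = false)

lemma exists_circuit {J G : Type} [Fintype G] (kind : G → GateKind) (preds : G → Finset (J ⊕ G))
    (dep : G → ℕ) (hdep : ∀ g h, Sum.inr h ∈ preds g → dep h < dep g) (hdep1 : ∀ g, 1 ≤ dep g)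
    (unary : ∀ g, kind g = GateKind.not → (preds g).card = 1) (out : G)
    (val : (J → Bool) → G → Bool)
    (hval : ∀ x g, val x g = gf (kind g) (preds g) (Sum.elim x (val x))) :
    ∃ C : Circuit J, C.size = Fintype.card G ∧ (∀ x, C.eval x = val x out) ∧
      C.depth ≤ dep out := by
  classical
  obtain ⟨f, hf⟩ : ∃ f : G → ℕ ×ₗ Fin (Fintype.card G),
      f = fun g => toLex (dep g, Fintype.equivFin G g) := ⟨_, rfl⟩
  have hinj : Function.Injective f := by
    intro a b hab
    rw [hf] at hab
    have h1 := congrArg (fun z => (ofLex z).2) hab
    exact (Fintype.equivFin G).injective h1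
  let _ : LinearOrder G := LinearOrder.lift' f hinj
  have hlt : ∀ g h : G, dep h < dep g → h < g := by
    intro g h hgh
    show f h < f g
    rw [hf]
    exact Prod.Lex.toLex_lt_toLex.2 (Or.inl hgh)
  let e : G ≃o Fin (Fintype.card G) := (Fintype.orderIsoFinOfCardEq G rfl).symm
  let m : J ⊕ G → J ⊕ Fin (Fintype.card G) := Sum.map id e
  have hm : Function.Injective m := Sum.map_injective.2 ⟨Function.injective_id, e.injective⟩
  let C : Circuit J :=
    { size := Fintype.card G
      kind := fun i => kind (e.symm i)
      preds := fun i => (preds (e.symm i)).map ⟨m, hm⟩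
      acyclic := by
        intro i j hj
        rw [Finset.mem_map] at hj
        obtain ⟨v, hv, hvj⟩ := hj
        cases v with
        | inl a => exact absurd hvj (by simp [m])
        | inr h =>
          have h1 : e h = j := by simpa [m] using hvj
          have h2 := hlt _ _ (hdep _ _ hv)
          have h3 : e h < e (e.symm i) := e.strictMono h2
          rw [e.apply_symm_apply, h1] at h3
          exact h3
      unary := by
        intro i hi
        rw [Finset.card_map]
        exact unary _ hi
      output := Sum.inr (e out) }
  have hgate : ∀ (x : J → Bool) (k : ℕ) (g : G), dep g = k → C.gateVal x (e g) = val x g := by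
    intro x k
    induction k using Nat.strong_induction_on with
    | _ k ih =>
      intro g hg
      rw [gateVal_eq, hval]
      unfold gfun gf
      have hk : C.kind (e g) = kind g := by
        show kind (e.symm (e g)) = kind g
        rw [e.symm_apply_apply]
      have hp : C.preds (e g) = (preds g).map ⟨m, hm⟩ := by
        show (preds (e.symm (e g))).map ⟨m, hm⟩ = _
        rw [e.symm_apply_apply]
      have hnode : ∀ v ∈ preds g, C.nodeVal x (m v) = Sum.elim x (val x) v := by
        intro v hv
        cases v with
        | inl j => rfl
        | inr h =>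
          show C.gateVal x (e h) = val x h
          exact ih (dep h) (by rw [← hg]; exact hdep _ _ hv) h rfl
      rw [hk, hp]
      cases kind g with
      | and =>
        simp only [Finset.mem_toList, Finset.mem_map, Function.Embedding.coeFn_mk]
        rw [decide_eq_decide]
        constructor
        · intro h u hu
          rw [← hnode u hu]
          exact h _ ⟨u, hu, rfl⟩
        · rintro h v ⟨u, hu, rfl⟩
          rw [hnode u hu]
          exact h u hu
      | or =>
        simp only [Finset.mem_toList, Finset.mem_map, Function.Embedding.coeFn_mk]
        rw [decide_eq_decide]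
        constructor
        · rintro ⟨v, ⟨u, hu, rfl⟩, h⟩
          exact ⟨u, hu, by rw [← hnode u hu]; exact h⟩
        · rintro ⟨u, hu, h⟩
          exact ⟨_, ⟨u, hu, rfl⟩, by rw [hnode u hu]; exact h⟩
      | not =>
        simp only [Finset.mem_toList, Finset.mem_map, Function.Embedding.coeFn_mk]
        rw [decide_eq_decide]
        constructor
        · intro h u hu
          rw [← hnode u hu]
          exact h _ ⟨u, hu, rfl⟩
        · rintro h v ⟨u, hu, rfl⟩
          rw [hnode u hu]
          exact h u hu
  have hdepth : ∀ (k : ℕ) (g : G), dep g = k → C.gateDepth (e g) ≤ dep g := by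
    intro k
    induction k using Nat.strong_induction_on with
    | _ k ih =>
      intro g hg
      apply gateDepth_le C (e g) (hdep1 g)
      intro v hv
      have hp : C.preds (e g) = (preds g).map ⟨m, hm⟩ := by
        show (preds (e.symm (e g))).map ⟨m, hm⟩ = _
        rw [e.symm_apply_apply]
      rw [hp, Finset.mem_map] at hv
      obtain ⟨u, hu, rfl⟩ := hv
      cases u with
      | inl j => exact hdep1 g
      | inr h =>
        have h1 := hdep _ _ hu
        exact lt_of_le_of_lt (ih (dep h) (by rw [← hg]; exact h1) h rfl) h1
  exact ⟨C, rfl, fun x => hgate x _ out rfl, hdepth _ out rfl⟩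

end H592R3.Orc
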