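import Mathlib

/-!
Circuits of small depth with an oracle.
-/

namespace SmallDepth

open Classical

/-- The kinds of gates of a circuit with an oracle. -/
inductive OracleGate
  | not
  | and
  | or
  | query

/-- A Boolean circuit with oracle gates. Its input bits are indexed by `J`, its nodes are the inputs
`Sum.inl j` and the gates `Sum.inr g`, `g < size`. Every gate has a list of predecessor nodes of any
length, and a predecessor that is a gate has a smaller number. A NOT gate has exactly one
predecessor. A `query` gate asks the oracle whether it contains the string of the values of its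
predecessors. -/
structure OracleCircuit (J : Type) where
  size : ℕ
  kind : Fin size → OracleGate
  preds : Fin size → List (J ⊕ Fin size)
  acyclic : ∀ g h : Fin size, Sum.inr h ∈ preds g → h < g
  unary : ∀ g, kind g = OracleGate.not → (preds g).length = 1
  output : J ⊕ Fin size

namespace OracleCircuit

variable {J : Type}

/-- The value of the gate `g` for the oracle `A` and the input `x`. -/
noncomputable def gateVal (C : OracleCircuit J) (A : Set (List Bool)) (x : J → Bool)
    (g : Fin C.size) : Bool :=
  let val : (v : J ⊕ Fin C.size) → v ∈ C.preds g → Bool := fun v hv =>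
    match v, hv with
    | Sum.inl j, _ => x j
    | Sum.inr h, hh => gateVal C A x h
  match C.kind g with
  | OracleGate.and => decide (∀ v, ∀ hv : v ∈ C.preds g, val v hv = true)
  | OracleGate.or => decide (∃ v, ∃ hv : v ∈ C.preds g, val v hv = true)
  | OracleGate.not => decide (∀ v, ∀ hv : v ∈ C.preds g, val v hv = false)
  | OracleGate.query => decide ((C.preds g).attach.map (fun v => val v.1 v.2) ∈ A)
termination_by g.val
decreasing_by exact C.acyclic g h hh

/-- The value of a node. -/
noncomputable def nodeVal (C : OracleCircuit J) (A : Set (List Bool)) (x : J → Bool) :
    J ⊕ Fin C.size → Bool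
  | Sum.inl j => x j
  | Sum.inr g => C.gateVal A x g

/-- The output bit. -/
noncomputable def eval (C : OracleCircuit J) (A : Set (List Bool)) (x : J → Bool) : Bool :=
  C.nodeVal A x C.output

/-- The depth of a gate: the largest number of edges of a directed path ending at it. -/
noncomputable def gateDepth (C : OracleCircuit J) (g : Fin C.size) : ℕ :=
  (C.preds g).toFinset.attach.sup (fun v =>
    match v with
    | ⟨Sum.inl _, _⟩ => 0
    | ⟨Sum.inr h, hh⟩ => gateDepth C h) + 1
termination_by g.val
decreasing_by exact C.acyclic g h (List.mem_toFinset.1 hh)

/-- The depth of a node. -/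
noncomputable def nodeDepth (C : OracleCircuit J) : J ⊕ Fin C.size → ℕ
  | Sum.inl _ => 0
  | Sum.inr g => C.gateDepth g

/-- The depth of the circuit: the depth of its output node. -/
noncomputable def depth (C : OracleCircuit J) : ℕ := C.nodeDepth C.output

end OracleCircuit

/-- The set `A` has at most `D` strings of each length. -/
def AtMost (A : Set (List Bool)) (D : ℕ) : Prop := ∀ l : ℕ, {a ∈ A | a.length = l}.ncard ≤ D

end SmallDepth
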