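import Mathlib
import Pool.Agent.H592R8.OracleDefs
import Pool.Agent.H592R8.Build

/-!
Replacing the oracle gates by tables.
-/

namespace H592R3.Orc

open Finset DomAC0 H568R2 H592R3 SmallDepth

variable {J : Type}

open Classical in
lemma orc_gateVal_eq (C : OracleCircuit J) (A : Set (List Bool)) (x : J → Bool) (g : Fin C.size) :
    C.gateVal A x g =
      match C.kind g with
      | OracleGate.and => decide (∀ v ∈ C.preds g, C.nodeVal A x v = true)
      | OracleGate.or => decide (∃ v ∈ C.preds g, C.nodeVal A x v = true)
      | OracleGate.not => decide (∀ v ∈ C.preds g, C.nodeVal A x v = false)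
      | OracleGate.query => decide ((C.preds g).map (C.nodeVal A x) ∈ A) := by
  classical
  rw [OracleCircuit.gateVal]
  cases C.kind g with
  | and =>
    simp only
    rw [decide_eq_decide]
    refine forall_congr' fun v => forall_congr' fun hv => ?_
    cases v <;> rfl
  | or =>
    simp only
    rw [decide_eq_decide]
    refine exists_congr fun v => ?_
    constructor
    · rintro ⟨hv, h⟩
      refine ⟨hv, ?_⟩
      cases v <;> exact h
    · rintro ⟨hv, h⟩
      refine ⟨hv, ?_⟩
      cases v <;> exact h
  | not =>
    simp only
    rw [decide_eq_decide]
    refine forall_congr' fun v => forall_congr' fun hv => ?_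
    cases v <;> rfl
  | query =>
    simp only
    rw [decide_eq_decide]
    have h1 : (C.preds g).map (C.nodeVal A x) =
        (C.preds g).attach.map (fun v => C.nodeVal A x v.1) := by
      conv_lhs => rw [← List.attach_map_subtype_val (C.preds g)]
      rw [List.map_map]
      rfl
    rw [h1]
    refine iff_of_eq (congrArg (· ∈ A) ?_)
    refine List.map_congr_left ?_
    rintro ⟨v, hv⟩ _
    cases v <;> rfl

lemma orc_depth_lt (C : OracleCircuit J) (g : Fin C.size) (h : Fin C.size)
    (hv : Sum.inr h ∈ C.preds g) : C.gateDepth h < C.gateDepth g := by
  classical
  rw [OracleCircuit.gateDepth.eq_1 C g, Nat.lt_succ_iff]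
  have h1 : Sum.inr h ∈ (C.preds g).toFinset := List.mem_toFinset.2 hv
  exact Finset.le_sup (f := fun v : {x // x ∈ (C.preds g).toFinset} =>
    match v with
    | ⟨Sum.inl _, _⟩ => 0
    | ⟨Sum.inr h, _⟩ => OracleCircuit.gateDepth C h) (Finset.mem_attach _ ⟨_, h1⟩)

lemma orc_one_le (C : OracleCircuit J) (g : Fin C.size) : 1 ≤ C.gateDepth g := by
  rw [OracleCircuit.gateDepth.eq_1 C g]; omega

/-- The strings of a given length of a set. -/
lemma exists_strs (A : Set (List Bool)) (D : ℕ) (hA : AtMost A D) (l : ℕ) :
    ∃ f : Fin D → Option (List Bool), ∀ a, (a ∈ A ∧ a.length = l) ↔ ∃ i, f i = some a := by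
  classical
  have hfin : {a ∈ A | a.length = l}.Finite :=
    (List.finite_length_eq Bool l).subset (fun a ha => ha.2)
  obtain ⟨S, hS⟩ : ∃ S : Finset (List Bool), S = hfin.toFinset := ⟨_, rfl⟩
  have hmem : ∀ a, a ∈ S ↔ a ∈ A ∧ a.length = l := by
    intro a
    rw [hS, Set.Finite.mem_toFinset]
    rfl
  have hcard : S.card ≤ D := by
    have h1 := hA l
    rw [Set.ncard_eq_toFinset_card _ hfin, ← hS] at h1
    exact h1
  refine ⟨fun i => if h : i.val < S.card then some (S.equivFin.symm ⟨i.val, h⟩).1 else none,
    fun a => ?_⟩
  rw [← hmem]
  constructor
  · intro ha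
    refine ⟨⟨(S.equivFin ⟨a, ha⟩).val, lt_of_lt_of_le (S.equivFin ⟨a, ha⟩).2 hcard⟩, ?_⟩
    beta_reduce
    rw [dif_pos (S.equivFin ⟨a, ha⟩).2]
    simp
  · rintro ⟨i, hi⟩
    beta_reduce at hi
    split_ifs at hi with h
    rw [← Option.some.inj hi]
    exact (S.equivFin.symm ⟨i.val, h⟩).2

lemma zip_iff {V : Type} (f : V → Bool) : ∀ (l : List V) (a : List Bool), a.length = l.length →
    (l.map f = a ↔ ∀ p ∈ l.zip a, f p.1 = p.2)
  | [], a, h => by
      have : a = [] := List.length_eq_zero_iff.1 h
      subst this
      simp
  | v :: l, [], h => by simp at h
  | v :: l, b :: a, h => by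
      have h1 : a.length = l.length := by simpa using h
      rw [List.map_cons, List.zip_cons_cons, List.cons_eq_cons, zip_iff f l a h1]
      simp

lemma mem_zip_left {V : Type} {l : List V} {a : List Bool} {v : V} {b : Bool}
    (h : (v, b) ∈ l.zip a) : v ∈ l := (List.of_mem_zip h).1

/-- The kinds of the gates. -/
def kd : OracleGate → GateKind
  | .not => GateKind.not
  | .and => GateKind.and
  | .or => GateKind.or
  | .query => GateKind.or

open Classical in
/-- A circuit with an oracle that contains few strings of each length is a circuit. -/
theorem to_circuit (C : OracleCircuit J) (A : Set (List Bool)) (D : ℕ) (hA : AtMost A D) :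
    ∃ C' : Circuit J, C'.size ≤ C.size * (3 * D + 1) ∧ (∀ x, C'.eval x = C.eval A x) ∧
      C'.depth ≤ 4 * C.depth := by
  rcases ho : C.output with j | o
  · refine ⟨⟨0, fun g => g.elim0, fun g => g.elim0, fun g => g.elim0, fun g => g.elim0,
      Sum.inl j⟩, Nat.zero_le _, fun x => ?_, ?_⟩
    · show x j = C.nodeVal A x C.output
      rw [ho]; rfl
    · exact Nat.zero_le _
  choose F hF using exists_strs A D hA
  obtain ⟨st, hst⟩ : ∃ st : Fin C.size → Fin D → Option (List Bool),
      st = fun g => if C.kind g = OracleGate.query then F (C.preds g).length else fun _ => none :=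
    ⟨_, rfl⟩
  let G := Fin C.size × Option (Fin D × Fin 3)
  let nd : J ⊕ Fin C.size → J ⊕ G := Sum.map id (fun h => (h, none))
  have hnd : Function.Injective nd := Sum.map_injective.2 ⟨Function.injective_id, fun a b h => by
    simpa using congrArg Prod.fst h⟩
  let kind : G → GateKind := fun g =>
    match g with
    | (g, none) => kd (C.kind g)
    | (_, some (_, 0)) => GateKind.or
    | (_, some (_, 1)) => GateKind.not
    | (g, some (i, 2)) => if (st g i).isSome then GateKind.and else GateKind.or
  let preds : G → Finset (J ⊕ G) := fun g =>
    match g with
    | (g, none) => if C.kind g = OracleGate.query then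
        univ.image (fun i : Fin D => (Sum.inr (g, some (i, 2)) : J ⊕ G))
        else (C.preds g).toFinset.image nd
    | (g, some (i, 0)) => match st g i with
      | none => ∅
      | some a => ((C.preds g).toFinset.filter (fun v => (v, false) ∈ (C.preds g).zip a)).image nd
    | (g, some (i, 1)) => {Sum.inr (g, some (i, 0))}
    | (g, some (i, 2)) => match st g i with
      | none => ∅
      | some a => insert (Sum.inr (g, some (i, 1)))
        (((C.preds g).toFinset.filter (fun v => (v, true) ∈ (C.preds g).zip a)).image nd)
  let dep : G → ℕ := fun g =>
    match g with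
    | (g, none) => 4 * C.gateDepth g
    | (g, some (_, 0)) => 4 * C.gateDepth g - 3
    | (g, some (_, 1)) => 4 * C.gateDepth g - 2
    | (g, some (_, 2)) => 4 * C.gateDepth g - 1
  let val : (J → Bool) → G → Bool := fun x g =>
    match g with
    | (g, none) => C.gateVal A x g
    | (g, some (i, 0)) => match st g i with
      | none => false
      | some a => decide (∃ v, (v, false) ∈ (C.preds g).zip a ∧ C.nodeVal A x v = true)
    | (g, some (i, 1)) => match st g i with
      | none => true
      | some a => !decide (∃ v, (v, false) ∈ (C.preds g).zip a ∧ C.nodeVal A x v = true)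
    | (g, some (i, 2)) => match st g i with
      | none => false
      | some a => decide (∀ p ∈ (C.preds g).zip a, C.nodeVal A x p.1 = p.2)
  have hvnd : ∀ (x : J → Bool) (v : J ⊕ Fin C.size), Sum.elim x (val x) (nd v) = C.nodeVal A x v := by
    intro x v
    cases v <;> rfl
  have hA1 : ∀ g h : G, Sum.inr h ∈ preds g → dep h < dep g := by
    rintro ⟨g, u⟩ ⟨h, u'⟩ hh
    have hg := orc_one_le C g
    rcases u with _ | ⟨i, k⟩
    · simp only [preds] at hh
      split_ifs at hh with hk
      · rw [Finset.mem_image] at hh
        obtain ⟨i, _, hi⟩ := hh
        have hi' := Sum.inr.inj hi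
        rw [← hi']
        show 4 * C.gateDepth g - 1 < 4 * C.gateDepth g
        omega
      · rw [Finset.mem_image] at hh
        obtain ⟨v, hv, hvh⟩ := hh
        cases v with
        | inl j => exact absurd hvh (by simp [nd])
        | inr h' =>
          have hi' : (h', none) = (h, u') := Sum.inr.inj hvh
          rw [← hi']
          have := orc_depth_lt C g h' (List.mem_toFinset.1 hv)
          show 4 * C.gateDepth h' < 4 * C.gateDepth g
          omega
    · fin_cases k
      · show dep (h, u') < 4 * C.gateDepth g - 3
        replace hh : Sum.inr (h, u') ∈ (match st g i with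
          | none => (∅ : Finset (J ⊕ G))
          | some a => ((C.preds g).toFinset.filter
            (fun v => (v, false) ∈ (C.preds g).zip a)).image nd) := hh
        cases hs : st g i with
        | none => rw [hs] at hh; simp at hh
        | some a =>
          rw [hs] at hh
          simp only [Finset.mem_image, Finset.mem_filter] at hh
          obtain ⟨v, ⟨hv, _⟩, hvh⟩ := hh
          cases v with
          | inl j => exact absurd hvh (by simp [nd])
          | inr h' =>
            have hi' : (h', none) = (h, u') := Sum.inr.inj hvh
            rw [← hi']
            have := orc_depth_lt C g h' (List.mem_toFinset.1 hv)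
            show 4 * C.gateDepth h' < 4 * C.gateDepth g - 3
            omega
      · show dep (h, u') < 4 * C.gateDepth g - 2
        have hh' : Sum.inr (h, u') = (Sum.inr (g, some (i, 0)) : J ⊕ G) :=
          Finset.mem_singleton.1 hh
        rw [Sum.inr.inj hh']
        show 4 * C.gateDepth g - 3 < 4 * C.gateDepth g - 2
        omega
      · show dep (h, u') < 4 * C.gateDepth g - 1
        replace hh : Sum.inr (h, u') ∈ (match st g i with
          | none => (∅ : Finset (J ⊕ G))
          | some a => insert (Sum.inr (g, some (i, 1)))
            (((C.preds g).toFinset.filter (fun v => (v, true) ∈ (C.preds g).zip a)).image nd)) := hh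
        cases hs : st g i with
        | none => rw [hs] at hh; simp at hh
        | some a =>
          rw [hs] at hh
          simp only [Finset.mem_insert, Finset.mem_image, Finset.mem_filter] at hh
          rcases hh with hh | ⟨v, ⟨hv, _⟩, hvh⟩
          · rw [Sum.inr.inj hh]
            show 4 * C.gateDepth g - 2 < 4 * C.gateDepth g - 1
            omega
          · cases v with
            | inl j => exact absurd hvh (by simp [nd])
            | inr h' =>
              have hi' : (h', none) = (h, u') := Sum.inr.inj hvh
              rw [← hi']
              have := orc_depth_lt C g h' (List.mem_toFinset.1 hv)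
              show 4 * C.gateDepth h' < 4 * C.gateDepth g - 1
              omega
  have hA2 : ∀ g : G, 1 ≤ dep g := by
    rintro ⟨g, u⟩
    have hg := orc_one_le C g
    rcases u with _ | ⟨i, k⟩
    · show 1 ≤ 4 * C.gateDepth g
      omega
    · fin_cases k
      · show 1 ≤ 4 * C.gateDepth g - 3
        omega
      · show 1 ≤ 4 * C.gateDepth g - 2
        omega
      · show 1 ≤ 4 * C.gateDepth g - 1
        omega
  have hA3 : ∀ g : G, kind g = GateKind.not → (preds g).card = 1 := by
    rintro ⟨g, u⟩ hk
    rcases u with _ | ⟨i, k⟩
    · have hk' : C.kind g = OracleGate.not := by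
        have : kd (C.kind g) = GateKind.not := hk
        cases hkk : C.kind g <;> rw [hkk] at this <;> simp_all [kd]
      have h1 := C.unary g hk'
      obtain ⟨v, hv⟩ := List.length_eq_one_iff.1 h1
      show (if C.kind g = OracleGate.query then _ else (C.preds g).toFinset.image nd).card = 1
      rw [if_neg (by rw [hk']; simp), hv]
      simp
    · fin_cases k
      · exact absurd hk (by simp [kind])
      · exact Finset.card_singleton _
      · exfalso
        have : (if (st g i).isSome then GateKind.and else GateKind.or) = GateKind.not := hk
        split_ifs at this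
  have hA4 : ∀ (x : J → Bool) (g : G), val x g = gf (kind g) (preds g) (Sum.elim x (val x)) := by
    rintro x ⟨g, u⟩
    rcases u with _ | ⟨i, k⟩
    · show C.gateVal A x g = gf (kd (C.kind g)) (if C.kind g = OracleGate.query then
        univ.image (fun i : Fin D => (Sum.inr (g, some (i, 2)) : J ⊕ G))
        else (C.preds g).toFinset.image nd) (Sum.elim x (val x))
      rw [orc_gateVal_eq]
      cases hk : C.kind g with
      | and =>
        rw [if_neg (by simp)]
        simp only [kd, gf]
        rw [decide_eq_decide]
        constructor
        · intro h u hu
          obtain ⟨v, hv, rfl⟩ := Finset.mem_image.1 hu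
          rw [hvnd]
          exact h v (List.mem_toFinset.1 hv)
        · intro h v hv
          rw [← hvnd]
          exact h _ (Finset.mem_image.2 ⟨v, List.mem_toFinset.2 hv, rfl⟩)
      | or =>
        rw [if_neg (by simp)]
        simp only [kd, gf]
        rw [decide_eq_decide]
        constructor
        · rintro ⟨v, hv, h⟩
          exact ⟨nd v, Finset.mem_image.2 ⟨v, List.mem_toFinset.2 hv, rfl⟩, by rw [hvnd]; exact h⟩
        · rintro ⟨u, hu, h⟩
          obtain ⟨v, hv, rfl⟩ := Finset.mem_image.1 hu
          rw [hvnd] at h
          exact ⟨v, List.mem_toFinset.1 hv, h⟩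
      | not =>
        rw [if_neg (by simp)]
        simp only [kd, gf]
        rw [decide_eq_decide]
        constructor
        · intro h u hu
          obtain ⟨v, hv, rfl⟩ := Finset.mem_image.1 hu
          rw [hvnd]
          exact h v (List.mem_toFinset.1 hv)
        · intro h v hv
          rw [← hvnd]
          exact h _ (Finset.mem_image.2 ⟨v, List.mem_toFinset.2 hv, rfl⟩)
      | query =>
        rw [if_pos rfl]
        simp only [kd, gf]
        rw [decide_eq_decide]
        have hst' : st g = F (C.preds g).length := by rw [hst]; simp only [hk, if_true]
        constructor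
        · intro h
          obtain ⟨i, hi⟩ := (hF (C.preds g).length _).1 ⟨h, by simp⟩
          refine ⟨Sum.inr (g, some (i, 2)), Finset.mem_image.2 ⟨i, Finset.mem_univ _, rfl⟩, ?_⟩
          show (match st g i with
            | none => false
            | some a => decide (∀ p ∈ (C.preds g).zip a, C.nodeVal A x p.1 = p.2)) = true
          rw [hst', hi]
          simp only [decide_eq_true_eq]
          exact (zip_iff _ _ _ (by simp)).1 rfl
        · rintro ⟨u, hu, h⟩
          obtain ⟨i, _, rfl⟩ := Finset.mem_image.1 hu
          replace h : (match st g i with
            | none => false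
            | some a => decide (∀ p ∈ (C.preds g).zip a, C.nodeVal A x p.1 = p.2)) = true := h
          cases hs : st g i with
          | none => rw [hs] at h; simp at h
          | some a =>
            rw [hs] at h
            simp only [decide_eq_true_eq] at h
            rw [hst'] at hs
            have h5 := (hF (C.preds g).length a).2 ⟨i, hs⟩
            rw [(zip_iff _ _ _ h5.2).2 h]
            exact h5.1
    · fin_cases k
      · show (match st g i with
          | none => false
          | some a => decide (∃ v, (v, false) ∈ (C.preds g).zip a ∧ C.nodeVal A x v = true)) =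
          gf GateKind.or (match st g i with
            | none => (∅ : Finset (J ⊕ G))
            | some a => ((C.preds g).toFinset.filter
              (fun v => (v, false) ∈ (C.preds g).zip a)).image nd) (Sum.elim x (val x))
        cases hs : st g i with
        | none => simp [gf]
        | some a =>
          simp only [gf]
          rw [decide_eq_decide]
          constructor
          · rintro ⟨v, hv, h⟩
            exact ⟨nd v, Finset.mem_image.2 ⟨v, Finset.mem_filter.2
              ⟨List.mem_toFinset.2 (mem_zip_left hv), hv⟩, rfl⟩, by rw [hvnd]; exact h⟩
          · rintro ⟨u, hu, h⟩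
            obtain ⟨v, hv, rfl⟩ := Finset.mem_image.1 hu
            rw [hvnd] at h
            exact ⟨v, (Finset.mem_filter.1 hv).2, h⟩
      · show (match st g i with
          | none => true
          | some a => !decide (∃ v, (v, false) ∈ (C.preds g).zip a ∧ C.nodeVal A x v = true)) =
          gf GateKind.not {(Sum.inr (g, some (i, 0)) : J ⊕ G)} (Sum.elim x (val x))
        have h1 : Sum.elim x (val x) (Sum.inr (g, some (i, 0)) : J ⊕ G) = (match st g i with
          | none => false
          | some a => decide (∃ v, (v, false) ∈ (C.preds g).zip a ∧ C.nodeVal A x v = true)) := rfl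
        simp only [gf, Finset.mem_singleton, forall_eq, h1]
        cases hs : st g i with
        | none => simp
        | some a =>
          simp only
          by_cases h2 : ∃ v, (v, false) ∈ (C.preds g).zip a ∧ C.nodeVal A x v = true
          · simp only [decide_eq_true h2]; rfl
          · simp only [decide_eq_false h2]; rfl
      · show (match st g i with
          | none => false
          | some a => decide (∀ p ∈ (C.preds g).zip a, C.nodeVal A x p.1 = p.2)) =
          gf (if (st g i).isSome then GateKind.and else GateKind.or) (match st g i with
            | none => (∅ : Finset (J ⊕ G))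
            | some a => insert (Sum.inr (g, some (i, 1)))
              (((C.preds g).toFinset.filter (fun v => (v, true) ∈ (C.preds g).zip a)).image nd))
            (Sum.elim x (val x))
        have h1 : Sum.elim x (val x) (Sum.inr (g, some (i, 1)) : J ⊕ G) = (match st g i with
          | none => true
          | some a => !decide (∃ v, (v, false) ∈ (C.preds g).zip a ∧ C.nodeVal A x v = true)) := rfl
        cases hs : st g i with
        | none => simp [gf]
        | some a =>
          rw [hs] at h1
          simp only [Option.isSome_some, if_true, gf]
          rw [decide_eq_decide]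
          constructor
          · intro h u hu
            rcases Finset.mem_insert.1 hu with rfl | hu
            · rw [h1]
              simp only [Bool.not_eq_true', decide_eq_false_iff_not]
              rintro ⟨v, hv, h2⟩
              have := h _ hv
              rw [h2] at this
              exact absurd this (by simp)
            · obtain ⟨v, hv, rfl⟩ := Finset.mem_image.1 hu
              rw [hvnd]
              exact h _ (Finset.mem_filter.1 hv).2
          · intro h
            rintro ⟨v, b⟩ hp
            cases b with
            | true =>
              show C.nodeVal A x v = true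
              rw [← hvnd]
              exact h _ (Finset.mem_insert_of_mem (Finset.mem_image.2 ⟨v, Finset.mem_filter.2
                ⟨List.mem_toFinset.2 (mem_zip_left hp), hp⟩, rfl⟩))
            | false =>
              show C.nodeVal A x v = false
              have h2 := h _ (Finset.mem_insert_self _ _)
              rw [h1] at h2
              simp only [Bool.not_eq_true', decide_eq_false_iff_not] at h2
              cases h3 : C.nodeVal A x v with
              | false => rfl
              | true => exact absurd ⟨v, hp, h3⟩ h2
  obtain ⟨C', h1, h2, h3⟩ := exists_circuit kind preds dep hA1 hA2 hA3 ((o, none) : G) val hA4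
  refine ⟨C', ?_, fun x => ?_, ?_⟩
  · rw [h1]
    simp only [G, Fintype.card_prod, Fintype.card_option, Fintype.card_fin]
    apply Nat.mul_le_mul_left
    omega
  · rw [h2]
    show C.gateVal A x o = C.nodeVal A x C.output
    rw [ho]; rfl
  · refine h3.trans ?_
    show 4 * C.gateDepth o ≤ 4 * C.nodeDepth C.output
    rw [ho]; exact le_refl _

end H592R3.Orc
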