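import Mathlib
import Pool.Agent.H592R7.AvgSat
import Pool.Agent.H592R8.Oracle

/-!
Circuits with dense oracles.
-/

set_option linter.unusedSectionVars false

namespace H592R3.Orc

open Finset DomAC0 H568R2 SmallDepth Filter

open Classical in
theorem oracle_sat (ε : ℝ) (hε : 0 < ε) : ∃ C : ℝ, 0 < C ∧
    ∀ n d w M : ℕ, 2 ≤ n → 1 ≤ d → C * (d * Real.log n) ≤ w → w ≤ n → n * 2 ^ w ≤ M →
    ∃ ν₀ ν₁ : ((Fin M × Fin n × Bool) → Bool) → ℝ,
      ((∀ u, 0 ≤ ν₀ u) ∧ ∑ u, ν₀ u = 1) ∧ ((∀ u, 0 ≤ ν₁ u) ∧ ∑ u, ν₁ u = 1) ∧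
      (∀ u, ν₀ u ≠ 0 → WidthLe u w) ∧ (∀ u, ν₁ u ≠ 0 → WidthLe u w ∧ ∃ α, Models u α) ∧
      (∑ u, ν₀ u * (if ∃ α, Models u α then 1 else 0)) ≤ (2 : ℝ) ^ (-((1 - ε) * n / 2)) ∧
      ∀ (D : ℕ) (A : Set (List Bool)) (K : OracleCircuit (Fin M × Fin n × Bool)), AtMost A D →
        K.depth ≤ d → (K.size : ℝ) * (3 * D + 1) ≤ 2 ^ ((1 - ε) * n) →
        |(∑ u, ν₀ u * (if K.eval A u = true then 1 else 0)) -
          ∑ u, ν₁ u * (if K.eval A u = true then 1 else 0)| ≤ (2 : ℝ) ^ (-((w : ℝ) / C)) := by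
  obtain ⟨C, hC, h⟩ := MbU.avg_sat ε hε
  refine ⟨4 * C, by positivity, ?_⟩
  intro n d w M hn hd hw hwn hM
  have hnR : (2 : ℝ) ≤ n := by exact_mod_cast hn
  obtain ⟨ν₀, ν₁, h0, h1, h2, h3, h4, h5⟩ := h n (4 * d) w M hn (by omega) (by
    push_cast
    calc C * (4 * d * Real.log n) = 4 * C * (d * Real.log n) := by ring
      _ ≤ w := hw) hwn hM
  refine ⟨ν₀, ν₁, h0, h1, h2, h3, h4, ?_⟩
  intro D A K hA hK1 hK2
  obtain ⟨K', e1, e2, e3⟩ := to_circuit K A D hA
  have h6 := h5 K' (e3.trans (Nat.mul_le_mul_left 4 hK1)) (by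
    refine le_trans ?_ hK2
    exact_mod_cast e1)
  have h7 : ∀ u, K'.eval u = K.eval A u := e2
  simp only [h7] at h6
  refine h6.trans ?_
  apply Real.rpow_le_rpow_of_exponent_le (by norm_num)
  rw [neg_le_neg_iff]
  apply div_le_div_of_nonneg_left (Nat.cast_nonneg _) hC
  linarith

lemma growth (p p' c : ℕ) (hp : p < p') : ∀ᶠ n : ℕ in atTop,
    n ^ c * (3 * 2 ^ (p * n / p') + 1) ≤ 2 ^ ((p + p') * n / (2 * p')) := by
  have hp' : 0 < p' := by omega
  have hp'R : (0 : ℝ) < p' := by exact_mod_cast hp'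
  have hl2 : 0 < Real.log 2 := Real.log_pos (by norm_num)
  have h2 := (isLittleO_log_rpow_atTop (r := 1) (by norm_num)).bound
    (c := Real.log 2 / (8 * p' * ((c : ℝ) + 1))) (by positivity)
  have h3 := tendsto_natCast_atTop_atTop (R := ℝ) |>.eventually h2
  filter_upwards [h3, eventually_ge_atTop (24 * p')] with n hn hn1
  have hn2 : 24 * (p' : ℝ) ≤ n := by exact_mod_cast hn1
  have hp1R : (1 : ℝ) ≤ p' := by exact_mod_cast hp'
  have hn1' : (1 : ℝ) ≤ n := by linarith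
  rw [Real.norm_of_nonneg (Real.log_nonneg hn1'), Real.rpow_one,
    Real.norm_of_nonneg (by positivity)] at hn
  have hlog0 := Real.log_nonneg hn1'
  have h4 : (c : ℝ) * Real.log n ≤ n * Real.log 2 / (8 * p') := by
    calc (c : ℝ) * Real.log n ≤ (c + 1) * Real.log n := by nlinarith
      _ ≤ (c + 1) * (Real.log 2 / (8 * p' * ((c : ℝ) + 1)) * n) := by gcongr
      _ = n * Real.log 2 / (8 * p') := by field_simp
  obtain ⟨m, hm⟩ : ∃ m, m = n / (2 * p') := ⟨_, rfl⟩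
  have hm1 : (n : ℝ) / (2 * p') - 1 ≤ m := by
    have h5 : n < (m + 1) * (2 * p') := by
      rw [hm]; exact Nat.lt_mul_of_div_lt (Nat.lt_succ_self _) (by omega)
    have h6 : (n : ℝ) < (m + 1) * (2 * p') := by exact_mod_cast h5
    have h7 : (n : ℝ) / (2 * p') < m + 1 := by
      rw [div_lt_iff₀ (by positivity)]; exact h6
    linarith
  have h5 : n ^ c * 4 ≤ 2 ^ m := by
    have h6 : Real.log ((n : ℝ) ^ c * 4) ≤ Real.log (2 ^ m) := by
      rw [Real.log_mul (by positivity) (by norm_num), Real.log_pow, Real.log_pow]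
      have h7 : Real.log 4 = 2 * Real.log 2 := by
        rw [show (4 : ℝ) = 2 ^ 2 by norm_num, Real.log_pow]; norm_num
      rw [h7]
      have h8 : (3 : ℝ) ≤ n / (8 * p') := by
        rw [le_div_iff₀ (by positivity)]; linarith
      have h9 : (n : ℝ) / (2 * p') = 4 * (n / (8 * p')) := by field_simp; ring
      have h10 : n * Real.log 2 / (8 * p') = n / (8 * p') * Real.log 2 := by ring
      rw [h10] at h4
      rw [h9] at hm1
      nlinarith
    have h7 : (n : ℝ) ^ c * 4 ≤ 2 ^ m :=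
      (Real.log_le_log_iff (by positivity) (by positivity)).1 h6
    exact_mod_cast h7
  have h6 : p * n / p' + m ≤ (p + p') * n / (2 * p') := by
    rw [hm, Nat.le_div_iff_mul_le (by omega)]
    have e1 : p * n / p' * p' ≤ p * n := Nat.div_mul_le_self _ _
    have e2 : n / (2 * p') * (2 * p') ≤ n := Nat.div_mul_le_self _ _
    have e3 : n + p * n ≤ p' * n := by
      calc n + p * n = (p + 1) * n := by ring
        _ ≤ p' * n := Nat.mul_le_mul_right _ hp
    calc (p * n / p' + n / (2 * p')) * (2 * p') =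
        2 * (p * n / p' * p') + n / (2 * p') * (2 * p') := by ring
      _ ≤ 2 * (p * n) + n := by omega
      _ ≤ p * n + p' * n := by omega
      _ = (p + p') * n := by ring
  calc n ^ c * (3 * 2 ^ (p * n / p') + 1) ≤ n ^ c * (4 * 2 ^ (p * n / p')) := by
        apply Nat.mul_le_mul_left
        have : 1 ≤ 2 ^ (p * n / p') := Nat.one_le_two_pow
        omega
    _ = n ^ c * 4 * 2 ^ (p * n / p') := by ring
    _ ≤ 2 ^ m * 2 ^ (p * n / p') := Nat.mul_le_mul_right _ h5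
    _ = 2 ^ (p * n / p' + m) := by rw [← pow_add, add_comm]
    _ ≤ 2 ^ ((p + p') * n / (2 * p')) := Nat.pow_le_pow_right (by norm_num) h6

end H592R3.Orc
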